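import Pool.Agent.W4helper48.JN.Stm

/-!
# The cone over a 2-connected outerplanar graph is 3-polytopal
-/

set_option autoImplicit false

namespace Pool.Agent.W4helper48.JN

open Set

namespace Up3

/-- the quadratic polynomial with the roots `i`, `j` -/
def P (i j x : ℝ) : ℝ := (x - i) * (x - j)

/-- the position of the vertex with the number `x` and the height `h` -/
noncomputable def pt (h x : ℝ) : Fin 3 → ℝ := ![h⁻¹, h⁻¹ * x, h⁻¹ * x ^ 2]

theorem af_pt (c0 α β γ h x : ℝ) (hh : h ≠ 0) :
    af c0 ![α, β, γ] (pt h x) = h⁻¹ * (c0 * h + α + β * x + γ * x ^ 2) := by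
  simp [af, pt, Fin.sum_univ_three]
  field_simp
  ring

theorem af_zero (c0 : ℝ) (c : Fin 3 → ℝ) : af c0 c 0 = c0 := by simp [af]

theorem four {i j a b : ℝ} (h : (i < a ∧ a < j ∧ j < b) ∨ (b < i ∧ i < a ∧ a < j)) :
    ∃ l m n r : ℝ, 0 < l ∧ 0 < m ∧ 0 < n ∧ 0 < r ∧ l + m = n + r ∧
      l * i + m * j = n * a + r * b ∧ l * i ^ 2 + m * j ^ 2 = n * a ^ 2 + r * b ^ 2 := by
  rcases h with ⟨h1, h2, h3⟩ | ⟨h1, h2, h3⟩
  · refine ⟨(j - a) * (b - a) * (b - j), (a - i) * (b - i) * (b - a),
      (j - i) * (b - i) * (b - j), (a - i) * (j - i) * (j - a), ?_, ?_, ?_, ?_, by ring,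
      by ring, by ring⟩ <;>
    exact mul_pos (mul_pos (by linarith) (by linarith)) (by linarith)
  · refine ⟨(a - b) * (j - b) * (j - a), (i - b) * (a - b) * (a - i),
      (i - b) * (j - b) * (j - i), (a - i) * (j - i) * (j - a), ?_, ?_, ?_, ?_, by ring,
      by ring, by ring⟩ <;>
    exact mul_pos (mul_pos (by linarith) (by linarith)) (by linarith)

theorem chord_ineq {i j a b l m n r c d : ℝ} (hl : 0 < l) (hm : 0 < m) (h0 : l + m = n + r)
    (h1 : l * i + m * j = n * a + r * b) (h2 : l * i ^ 2 + m * j ^ 2 = n * a ^ 2 + r * b ^ 2)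
    (hsep : (P c d a ≤ 0 ∧ P c d b ≤ 0) ∨ (0 ≤ P c d a ∧ 0 ≤ P c d b)) :
    n * max 0 (-P c d a) + r * max 0 (-P c d b) ≤
      l * max 0 (-P c d i) + m * max 0 (-P c d j) := by
  rcases hsep with ⟨ha, hb⟩ | ⟨ha, hb⟩
  · rw [max_eq_right (by linarith : 0 ≤ -P c d a), max_eq_right (by linarith : 0 ≤ -P c d b)]
    have h3 : n * -P c d a + r * -P c d b = l * -P c d i + m * -P c d j := by
      unfold P
      linear_combination (-h2) * (-1) + (c + d) * (-h1) + c * d * h0
    rw [h3]
    exact add_le_add (mul_le_mul_of_nonneg_left (le_max_right _ _) hl.le)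
      (mul_le_mul_of_nonneg_left (le_max_right _ _) hm.le)
  · rw [max_eq_left (by linarith : -P c d a ≤ 0), max_eq_left (by linarith : -P c d b ≤ 0)]
    have h3 := mul_nonneg hl.le (le_max_left 0 (-P c d i))
    have h4 := mul_nonneg hm.le (le_max_left 0 (-P c d j))
    linarith

theorem exists_ab {V : Type} [Fintype V] (H : SimpleGraph V) {N : ℕ} (e : V ≃ Fin N)
    (hside : ∀ u v, (e u).val + 1 = (e v).val → H.Adj u v)
    (hlast : ∀ u v, (e u).val = 0 → (e v).val + 1 = N → H.Adj u v)
    (hcross : ∀ a b c d, e a < e b → e b < e c → e c < e d → H.Adj a c → H.Adj b d → False)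
    (i j : V) (hij : e i < e j) (hadj : ¬ H.Adj i j) :
    ∃ a b, ((e i < e a ∧ e a < e j ∧ e j < e b) ∨ (e b < e i ∧ e i < e a ∧ e a < e j)) ∧
      ∀ c d, e c < e d → H.Adj c d →
        ((e c ≤ e a ∧ e a ≤ e d ∧ e c ≤ e b ∧ e b ≤ e d) ∨
          ((e a ≤ e c ∨ e d ≤ e a) ∧ (e b ≤ e c ∨ e d ≤ e b))) := by
  classical
  have hinj : ∀ {x y : V}, e x = e y → x = y := fun h => e.injective h
  have hij1 : (e i).val + 1 < (e j).val := by
    rcases Nat.lt_or_ge ((e i).val + 1) (e j).val with h | h
    · exact h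
    · exfalso
      apply hadj
      apply hside
      rw [Fin.lt_def] at hij
      omega
  have hN := (e j).isLt
  -- the first neighbour
  obtain ⟨a, ha, hamax⟩ := Finset.exists_max_image
    (Finset.univ.filter fun x => e i < e x ∧ e x < e j ∧ H.Adj i x) (fun x => e x)
    ⟨e.symm ⟨(e i).val + 1, by omega⟩, by
      rw [Finset.mem_filter]
      refine ⟨Finset.mem_univ _, ?_, ?_, ?_⟩
      · rw [Equiv.apply_symm_apply, Fin.lt_def]
        simp
      · rw [Equiv.apply_symm_apply, Fin.lt_def]
        exact hij1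
      · apply hside
        rw [Equiv.apply_symm_apply]⟩
  rw [Finset.mem_filter] at ha
  obtain ⟨-, hia, haj, hAia⟩ := ha
  have hamax' : ∀ x, H.Adj i x → e a < e x → e x < e j → False := by
    intro x h1 h2 h3
    have := hamax x (by
      rw [Finset.mem_filter]
      exact ⟨Finset.mem_univ _, hia.trans h2, h3, h1⟩)
    exact absurd h2 (not_lt.2 this)
  by_cases hx : ∃ x, e j < e x ∧ H.Adj i x
  · obtain ⟨b, hb, hbmin⟩ := Finset.exists_min_image
      (Finset.univ.filter fun x => e j < e x ∧ H.Adj i x) (fun x => e x)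
      (by
        obtain ⟨x, hx1, hx2⟩ := hx
        exact ⟨x, by rw [Finset.mem_filter]; exact ⟨Finset.mem_univ _, hx1, hx2⟩⟩)
    rw [Finset.mem_filter] at hb
    obtain ⟨-, hjb, hAib⟩ := hb
    have hbmin' : ∀ x, H.Adj i x → e j < e x → e x < e b → False := by
      intro x h1 h2 h3
      have := hbmin x (by
        rw [Finset.mem_filter]
        exact ⟨Finset.mem_univ _, h2, h1⟩)
      exact absurd h3 (not_lt.2 this)
    refine ⟨a, b, Or.inl ⟨hia, haj, hjb⟩, fun c d hcd hA => ?_⟩
    by_cases h1 : e c < e a ∧ e a < e d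
    · by_cases h2 : e d < e b
      · exfalso
        rcases lt_trichotomy (e c) (e i) with h3 | h3 | h3
        · exact hcross c i d b h3 (hia.trans h1.2) h2 hA hAib
        · have hci : c = i := hinj h3
          subst hci
          rcases lt_trichotomy (e d) (e j) with h4 | h4 | h4
          · exact hamax' d hA h1.2 h4
          · exact hadj (by rw [← hinj h4]; exact hA)
          · exact hbmin' d hA h4 h2
        · exact hcross i c a d h3 h1.1 h1.2 hAia hA
      · left
        exact ⟨h1.1.le, h1.2.le, (h1.1.trans (haj.trans hjb)).le, not_lt.1 h2⟩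
    · by_cases h2 : e c < e b ∧ e b < e d
      · by_cases h3 : e a < e c
        · exfalso
          exact hcross i c b d (hia.trans h3) h2.1 h2.2 hAib hA
        · left
          exact ⟨not_lt.1 h3, (haj.trans (hjb.trans h2.2)).le, h2.1.le, h2.2.le⟩
      · right
        rw [not_and_or, not_lt, not_lt] at h1 h2
        exact ⟨h1, h2⟩
  · have hx' : ∀ x, H.Adj i x → e j < e x → False := fun x h1 h2 => hx ⟨x, h2, h1⟩
    have hi0 : 0 < (e i).val := by
      rcases Nat.eq_zero_or_pos (e i).val with h | h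
      · exfalso
        have h5 : H.Adj i (e.symm ⟨N - 1, by omega⟩) := by
          apply hlast
          · exact h
          · rw [Equiv.apply_symm_apply]
            change N - 1 + 1 = N
            omega
        rcases lt_trichotomy (e (e.symm ⟨N - 1, by omega⟩)) (e j) with h4 | h4 | h4
        · rw [Equiv.apply_symm_apply, Fin.lt_def] at h4
          dsimp only at h4
          omega
        · rw [hinj h4] at h5
          exact hadj h5
        · exact hx' _ h5 h4
      · exact h
    obtain ⟨b, hb, hbmin⟩ := Finset.exists_min_image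
      (Finset.univ.filter fun x => e x < e i ∧ H.Adj i x) (fun x => e x)
      ⟨e.symm ⟨(e i).val - 1, by omega⟩, by
        rw [Finset.mem_filter]
        refine ⟨Finset.mem_univ _, ?_, ?_⟩
        · rw [Equiv.apply_symm_apply, Fin.lt_def]
          dsimp only
          omega
        · apply SimpleGraph.Adj.symm
          apply hside
          rw [Equiv.apply_symm_apply]
          dsimp only
          omega⟩
    rw [Finset.mem_filter] at hb
    obtain ⟨-, hbi, hAib⟩ := hb
    have hbmin' : ∀ x, H.Adj i x → e x < e b → False := by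
      intro x h1 h3
      have := hbmin x (by
        rw [Finset.mem_filter]
        exact ⟨Finset.mem_univ _, h3.trans hbi, h1⟩)
      exact absurd h3 (not_lt.2 this)
    refine ⟨a, b, Or.inr ⟨hbi, hia, haj⟩, fun c d hcd hA => ?_⟩
    by_cases h1 : e c < e a ∧ e a < e d
    · by_cases h2 : e b < e c
      · exfalso
        rcases lt_trichotomy (e c) (e i) with h3 | h3 | h3
        · exact hcross b c i d h2 h3 (hia.trans h1.2) hAib.symm hA
        · have hci : c = i := hinj h3
          subst hci
          rcases lt_trichotomy (e d) (e j) with h4 | h4 | h4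
          · exact hamax' d hA h1.2 h4
          · exact hadj (by rw [← hinj h4]; exact hA)
          · exact hx' d hA h4
        · exact hcross i c a d h3 h1.1 h1.2 hAia hA
      · left
        exact ⟨h1.1.le, h1.2.le, not_lt.1 h2, (hbi.trans (hia.trans h1.2)).le⟩
    · by_cases h2 : e c < e b ∧ e b < e d
      · by_cases h3 : e d < e a
        · exfalso
          rcases lt_trichotomy (e d) (e i) with h4 | h4 | h4
          · exact hcross c b d i h2.1 h2.2 h4 hA hAib.symm
          · have hdi : d = i := hinj h4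
            subst hdi
            exact hbmin' c hA.symm h2.1
          · exact hcross c i d a (h2.1.trans hbi) h4 h3 hA hAia
        · left
          exact ⟨(h2.1.trans (hbi.trans hia)).le, not_lt.1 h3, h2.1.le, h2.2.le⟩
      · right
        rw [not_and_or, not_lt, not_lt] at h1 h2
        exact ⟨h1, h2⟩

/-! ### Heights -/

/-- the height function -/
noncomputable def ht {V : Type} (r : V → ℝ) (C : Finset (V × V)) (x : ℝ) : ℝ :=
  1 + ∑ c ∈ C, max 0 (-P (r c.1) (r c.2) x)

theorem ht_pos {V : Type} (r : V → ℝ) (C : Finset (V × V)) (x : ℝ) : 0 < ht r C x := by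
  have : 0 ≤ ∑ c ∈ C, max 0 (-P (r c.1) (r c.2) x) :=
    Finset.sum_nonneg fun c _ => le_max_left _ _
  unfold ht
  linarith

theorem P_nonpos {c d x : ℝ} (h1 : c ≤ x) (h2 : x ≤ d) : P c d x ≤ 0 :=
  mul_nonpos_of_nonneg_of_nonpos (by linarith) (by linarith)

theorem P_nonneg_left {c d x : ℝ} (hcd : c ≤ d) (h : x ≤ c) : 0 ≤ P c d x :=
  mul_nonneg_of_nonpos_of_nonpos (by linarith) (by linarith)

theorem P_nonneg_right {c d x : ℝ} (hcd : c ≤ d) (h : d ≤ x) : 0 ≤ P c d x :=
  mul_nonneg (by linarith) (by linarith)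

theorem term_nonneg {t p : ℝ} (h0 : 0 ≤ t) (h1 : t ≤ 1) : 0 ≤ max 0 (-p) + t * p := by
  rcases le_total 0 p with h | h
  · rw [max_eq_left (by linarith)]
    have := mul_nonneg h0 h
    linarith
  · rw [max_eq_right (by linarith)]
    have := mul_nonneg (sub_nonneg.2 h1) (neg_nonneg.2 h)
    nlinarith

theorem term_pos {p : ℝ} (h0 : p ≠ 0) : 0 < max 0 (-p) + 1 / 2 * p := by
  rcases lt_or_gt_of_ne h0 with h | h
  · rw [max_eq_right (by linarith)]
    linarith
  · rw [max_eq_left (by linarith)]
    linarith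

theorem four_sum {V : Type} (r : V → ℝ) (C : Finset (V × V)) {i j a b l m n s : ℝ} (hl : 0 < l)
    (hm : 0 < m) (h0 : l + m = n + s) (h1 : l * i + m * j = n * a + s * b)
    (h2 : l * i ^ 2 + m * j ^ 2 = n * a ^ 2 + s * b ^ 2)
    (hsep : ∀ c ∈ C, (P (r c.1) (r c.2) a ≤ 0 ∧ P (r c.1) (r c.2) b ≤ 0) ∨
      (0 ≤ P (r c.1) (r c.2) a ∧ 0 ≤ P (r c.1) (r c.2) b)) :
    n * ht r C a + s * ht r C b ≤ l * ht r C i + m * ht r C j := by
  unfold ht
  have h3 : ∑ c ∈ C, (n * max 0 (-P (r c.1) (r c.2) a) + s * max 0 (-P (r c.1) (r c.2) b)) ≤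
      ∑ c ∈ C, (l * max 0 (-P (r c.1) (r c.2) i) + m * max 0 (-P (r c.1) (r c.2) j)) :=
    Finset.sum_le_sum fun c hc => chord_ineq hl hm h0 h1 h2 (hsep c hc)
  rw [Finset.sum_add_distrib, Finset.sum_add_distrib, ← Finset.mul_sum, ← Finset.mul_sum,
    ← Finset.mul_sum, ← Finset.mul_sum] at h3
  linarith

/-- the affine function for an edge -/
theorem edge_fun {V : Type} [Fintype V] (H : SimpleGraph V) {N : ℕ} (e : V ≃ Fin N)
    (hcross : ∀ a b c d, e a < e b → e b < e c → e c < e d → H.Adj a c → H.Adj b d → False)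
    (r : V → ℝ) (hr : ∀ v, r v = ((e v).val : ℝ)) (C : Finset (V × V))
    (hC : ∀ c, c ∈ C ↔ e c.1 < e c.2 ∧ H.Adj c.1 c.2)
    (u v : V) (huv : e u < e v) (hadj : H.Adj u v) :
    ∃ α β γ : ℝ, ht r C (r u) + α + β * r u + γ * r u ^ 2 = 0 ∧
      ht r C (r v) + α + β * r v + γ * r v ^ 2 = 0 ∧
      ∀ w, w ≠ u → w ≠ v → 0 < ht r C (r w) + α + β * r w + γ * r w ^ 2 := by
  classical
  have hle : ∀ {x y : V}, e x ≤ e y → r x ≤ r y := by
    intro x y h
    rw [hr, hr]
    exact_mod_cast h
  have hne : ∀ {x y : V}, x ≠ y → r x ≠ r y := by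
    intro x y h h2
    rw [hr, hr] at h2
    exact h (e.injective (Fin.ext (by exact_mod_cast h2)))
  let t : V × V → ℝ := fun c => if c = (u, v) then 1 / 2 else
    if e c.1 ≤ e u ∧ e v ≤ e c.2 then 1 else 0
  have ht0 : ∀ c, 0 ≤ t c := by
    intro c
    simp only [t]
    split_ifs <;> norm_num
  have ht1 : ∀ c, t c ≤ 1 := by
    intro c
    simp only [t]
    split_ifs <;> norm_num
  have key : ∀ x : ℝ, ht r C x + (-1 + ∑ c ∈ C, t c * (r c.1 * r c.2)) +
      (∑ c ∈ C, t c * (-(r c.1 + r c.2))) * x + (∑ c ∈ C, t c) * x ^ 2 =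
      ∑ c ∈ C, (max 0 (-P (r c.1) (r c.2) x) + t c * P (r c.1) (r c.2) x) := by
    intro x
    have h1 : ∑ c ∈ C, t c * P (r c.1) (r c.2) x = ∑ c ∈ C, t c * (r c.1 * r c.2) +
      (∑ c ∈ C, t c * (-(r c.1 + r c.2))) * x + (∑ c ∈ C, t c) * x ^ 2 := by
      rw [Finset.sum_mul, Finset.sum_mul, ← Finset.sum_add_distrib, ← Finset.sum_add_distrib]
      refine Finset.sum_congr rfl fun c _ => ?_
      unfold P
      ring
    rw [Finset.sum_add_distrib, h1]
    unfold ht
    ring
  have hzero : ∀ c ∈ C, ∀ x, x = u ∨ x = v →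
      max 0 (-P (r c.1) (r c.2) (r x)) + t c * P (r c.1) (r c.2) (r x) = 0 := by
    intro c hc x hx
    obtain ⟨hc1, hc2⟩ := (hC c).1 hc
    by_cases h1 : c = (u, v)
    · subst h1
      have h2 : P (r u) (r v) (r x) = 0 := by
        unfold P
        rcases hx with rfl | rfl <;> simp
      simp [h2]
    · by_cases h2 : e c.1 ≤ e u ∧ e v ≤ e c.2
      · have h3 : t c = 1 := by simp [t, h1, h2]
        have h4 : P (r c.1) (r c.2) (r x) ≤ 0 := by
          rcases hx with rfl | rfl
          · exact P_nonpos (hle h2.1) (hle (huv.le.trans h2.2))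
          · exact P_nonpos (hle (h2.1.trans huv.le)) (hle h2.2)
        rw [h3, max_eq_right (by linarith)]
        ring
      · have h3 : t c = 0 := by simp only [t, if_neg h1, if_neg h2]
        have h4 : 0 ≤ P (r c.1) (r c.2) (r x) := by
          by_contra hneg
          have h5 : e c.1 < e x := by
            by_contra h
            exact hneg (P_nonneg_left (hle hc1.le) (hle (not_lt.1 h)))
          have h6 : e x < e c.2 := by
            by_contra h
            exact hneg (P_nonneg_right (hle hc1.le) (hle (not_lt.1 h)))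
          apply h2
          rcases hx with rfl | rfl
          · refine ⟨h5.le, ?_⟩
            by_contra h7
            exact hcross c.1 x c.2 v h5 h6 (not_le.1 h7) hc2 hadj
          · refine ⟨?_, h6.le⟩
            by_contra h7
            exact hcross u c.1 x c.2 (not_le.1 h7) h5 h6 hadj hc2
        rw [h3, max_eq_left (by linarith)]
        ring
  refine ⟨_, _, _, (key _).trans (Finset.sum_eq_zero fun c hc => hzero c hc u (Or.inl rfl)),
    (key _).trans (Finset.sum_eq_zero fun c hc => hzero c hc v (Or.inr rfl)),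
    fun w hwu hwv => ?_⟩
  rw [key]
  refine Finset.sum_pos' (fun c _ => term_nonneg (ht0 c) (ht1 c)) ⟨(u, v), ?_, ?_⟩
  · exact (hC _).2 ⟨huv, hadj⟩
  · have h1 : t (u, v) = 1 / 2 := by simp [t]
    rw [h1]
    apply term_pos
    exact mul_ne_zero (sub_ne_zero.2 (hne hwu)) (sub_ne_zero.2 (hne hwv))

end Up3

open Up3 in
theorem up3 : Up3Stm := by
  intro V _ H hH
  classical
  obtain ⟨N, e, hN, hside, hlast, hcross⟩ := hH
  let r : V → ℝ := fun v => ((e v).val : ℝ)
  have hr : ∀ v, r v = ((e v).val : ℝ) := fun v => rfl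
  have hle : ∀ {x y : V}, e x ≤ e y → r x ≤ r y := by
    intro x y h
    rw [hr, hr]
    exact_mod_cast h
  have hlt : ∀ {x y : V}, e x < e y → r x < r y := by
    intro x y h
    rw [hr, hr]
    exact_mod_cast h
  have hne : ∀ {x y : V}, x ≠ y → 1 ≤ (r x - r y) ^ 2 := by
    intro x y h
    have h3 : ((e x).val : ℤ) - ((e y).val : ℤ) ≠ 0 := by
      intro h2
      exact h (e.injective (Fin.ext (by omega)))
    have h4 : 1 ≤ (((e x).val : ℤ) - ((e y).val : ℤ)) ^ 2 := by
      have := sq_pos_of_ne_zero h3 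
      omega
    rw [hr, hr]
    exact_mod_cast h4
  let C : Finset (V × V) := Finset.univ.filter fun c => e c.1 < e c.2 ∧ H.Adj c.1 c.2
  have hC : ∀ c, c ∈ C ↔ e c.1 < e c.2 ∧ H.Adj c.1 c.2 := by
    intro c
    simp [C]
  have hp : ∀ x, 0 < ht r C x := ht_pos r C
  have hp' : ∀ x, 0 < (ht r C x)⁻¹ := fun x => inv_pos.2 (hp x)
  let p : V ⊕ Fin 1 → Fin 3 → ℝ := Sum.elim (fun v => pt (ht r C (r v)) (r v)) (fun _ => 0)
  have hpl : ∀ v, p (Sum.inl v) = pt (ht r C (r v)) (r v) := fun v => rfl
  have hpr : ∀ z, p (Sum.inr z) = 0 := fun v => rfl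
  have : Nonempty (V ⊕ Fin 1) := ⟨Sum.inr 0⟩
  have hval : ∀ (c0 α β γ : ℝ) (v : V), af c0 ![α, β, γ] (p (Sum.inl v)) =
      (ht r C (r v))⁻¹ * (c0 * ht r C (r v) + α + β * r v + γ * r v ^ 2) := fun c0 α β γ v => by
    rw [hpl, af_pt _ _ _ _ _ _ (hp _).ne']
  have hcone : ∀ (x : Fin 1), x = 0 := fun x => Subsingleton.elim _ _
  apply polytopal_of (joinComplete H 1) p
  · intro c0 c h
    have h0 := h (Sum.inr 0)
    rw [hpr, af_zero] at h0
    subst h0
    have h1 : ∀ k : ℕ, (hk : k < N) → c 0 + c 1 * k + c 2 * k ^ 2 = 0 := by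
      intro k hk
      have h2 := h (Sum.inl (e.symm ⟨k, hk⟩))
      have h3 : c = ![c 0, c 1, c 2] := by
        ext i
        fin_cases i <;> rfl
      rw [h3, hval] at h2
      have h4 := (mul_eq_zero.1 h2).resolve_left (hp' _).ne'
      rw [hr, Equiv.apply_symm_apply] at h4
      simpa using h4
    have e0 := h1 0 (by omega)
    have e1 := h1 1 (by omega)
    have e2 := h1 2 (by omega)
    norm_num at e0 e1 e2
    ext i
    fin_cases i
    · exact e0
    · change c 1 = 0
      linarith
    · change c 2 = 0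
      linarith
  · rintro (v | z)
    · refine ⟨1, ![-(ht r C (r v)) + ht r C (r v) * r v ^ 2, -2 * ht r C (r v) * r v,
        ht r C (r v)], ?_, ?_⟩
      · rw [hval]
        ring
      · rintro (w | z) hw
        · rw [hval]
          apply mul_pos (hp' _)
          have h1 : w ≠ v := fun h => hw (by rw [h])
          have h2 := hne h1
          have h3 := hp (r v)
          have h4 := hp (r w)
          nlinarith [mul_le_mul_of_nonneg_left h2 h3.le]
        · rw [hpr, af_zero]
          exact one_pos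
    · refine ⟨0, ![1, 0, 0], ?_, ?_⟩
      · rw [hpr, af_zero]
      · rintro (w | y) hw
        · rw [hval]
          apply mul_pos (hp' _)
          norm_num
        · exact absurd (by rw [hcone y, hcone z]) hw
  · have hcase : ∀ u v, e u < e v → H.Adj u v → ∃ (c0 : ℝ) (c : Fin 3 → ℝ),
        af c0 c (p (Sum.inl u)) ≤ 0 ∧ af c0 c (p (Sum.inl v)) ≤ 0 ∧
        ∀ w, w ≠ Sum.inl u → w ≠ Sum.inl v → 0 < af c0 c (p w) := by
      intro u v huv hadj
      obtain ⟨α, β, γ, h1, h2, h3⟩ := edge_fun H e hcross r hr C hC u v huv hadj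
      refine ⟨1, ![α, β, γ], ?_, ?_, ?_⟩
      · rw [hval, one_mul, h1, mul_zero]
      · rw [hval, one_mul, h2, mul_zero]
      · rintro (w | z) hw1 hw2
        · rw [hval, one_mul]
          exact mul_pos (hp' _) (h3 w (fun h => hw1 (by rw [h])) (fun h => hw2 (by rw [h])))
        · rw [hpr, af_zero]
          exact one_pos
    have hcone2 : ∀ u (z : Fin 1), ∃ (c0 : ℝ) (c : Fin 3 → ℝ),
        af c0 c (p (Sum.inl u)) ≤ 0 ∧ af c0 c (p (Sum.inr z)) ≤ 0 ∧
        ∀ w, w ≠ Sum.inl u → w ≠ Sum.inr z → 0 < af c0 c (p w) := by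
      intro u z
      refine ⟨0, ![r u ^ 2, -2 * r u, 1], ?_, ?_, ?_⟩
      · rw [hval]
        apply le_of_eq
        ring
      · rw [hpr, af_zero]
      · rintro (w | y) hw1 hw2
        · rw [hval]
          apply mul_pos (hp' _)
          have h1 := hne (fun h => hw1 (by rw [h]) : w ≠ u)
          nlinarith
        · exact absurd (by rw [hcone y, hcone z]) hw2
    rintro (u | y) (v | z) hadj
    · have h1 : H.Adj u v := hadj.2 u v rfl rfl
      rcases lt_trichotomy (e u) (e v) with h | h | h
      · exact hcase u v h h1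
      · exact absurd (e.injective h) h1.ne
      · obtain ⟨c0, c, h2, h3, h4⟩ := hcase v u h h1.symm
        exact ⟨c0, c, h3, h2, fun w hw1 hw2 => h4 w hw2 hw1⟩
    · exact hcone2 u z
    · obtain ⟨c0, c, h2, h3, h4⟩ := hcone2 v y
      exact ⟨c0, c, h3, h2, fun w hw1 hw2 => h4 w hw2 hw1⟩
    · exact absurd (by rw [hcone y, hcone z]) hadj.1
  · have hcase : ∀ u v, e u < e v → ¬ H.Adj u v → ∃ (a b : ℝ) (c : V ⊕ Fin 1 → ℝ)
        (w : V ⊕ Fin 1), w ≠ Sum.inl u ∧ w ≠ Sum.inl v ∧
        (∀ x, 0 ≤ c x) ∧ 0 < c w ∧ ∑ x, c x = a + b ∧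
        ∀ k, a * p (Sum.inl u) k + b * p (Sum.inl v) k = ∑ x, c x * p x k := by
      intro u v huv hadj
      obtain ⟨a, b, hab, hsep⟩ := exists_ab H e hside hlast hcross u v huv hadj
      have hab' : (r u < r a ∧ r a < r v ∧ r v < r b) ∨ (r b < r u ∧ r u < r a ∧ r a < r v) :=
        hab.imp (fun h => ⟨hlt h.1, hlt h.2.1, hlt h.2.2⟩) (fun h => ⟨hlt h.1, hlt h.2.1, hlt h.2.2⟩)
      obtain ⟨l, m, n, s, hl, hm, hn, hs, h0, h1, h2⟩ := four hab'
      have hsum := four_sum r C hl hm h0 h1 h2 (fun c hc => by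
        obtain ⟨hc1, hc2⟩ := (hC c).1 hc
        rcases hsep c.1 c.2 hc1 hc2 with ⟨q1, q2, q3, q4⟩ | ⟨q1, q2⟩
        · exact Or.inl ⟨P_nonpos (hle q1) (hle q2), P_nonpos (hle q3) (hle q4)⟩
        · right
          constructor
          · rcases q1 with q | q
            · exact P_nonneg_left (hle hc1.le) (hle q)
            · exact P_nonneg_right (hle hc1.le) (hle q)
          · rcases q2 with q | q
            · exact P_nonneg_left (hle hc1.le) (hle q)
            · exact P_nonneg_right (hle hc1.le) (hle q))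
      have hau : a ≠ u := by
        rintro rfl
        rcases hab with h | h
        · exact lt_irrefl _ h.1
        · exact lt_irrefl _ h.2.1
      have hav : a ≠ v := by
        rintro rfl
        rcases hab with h | h
        · exact lt_irrefl _ h.2.1
        · exact lt_irrefl _ h.2.2
      have hba : b ≠ a := by
        rintro rfl
        rcases hab with h | h
        · exact lt_irrefl _ (h.2.1.trans h.2.2)
        · exact lt_irrefl _ (h.1.trans h.2.1)
      refine ⟨l * ht r C (r u), m * ht r C (r v),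
        Sum.elim (fun x => (if x = a then n * ht r C (r a) else 0) +
          (if x = b then s * ht r C (r b) else 0))
          (fun _ => l * ht r C (r u) + m * ht r C (r v) - (n * ht r C (r a) + s * ht r C (r b))),
        Sum.inl a, fun h => hau (Sum.inl.inj h), fun h => hav (Sum.inl.inj h), ?_, ?_, ?_, ?_⟩
      · rintro (x | x)
        · simp only [Sum.elim_inl]
          have q1 := mul_pos hn (hp (r a))
          have q2 := mul_pos hs (hp (r b))
          split_ifs <;> linarith
        · simp only [Sum.elim_inr]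
          linarith
      · simp only [Sum.elim_inl, if_true, if_neg hba.symm]
        have q1 := mul_pos hn (hp (r a))
        linarith
      · rw [Fintype.sum_sum_type]
        simp only [Sum.elim_inl, Sum.elim_inr, Finset.sum_add_distrib, Finset.sum_ite_eq',
          Finset.mem_univ, if_true, Finset.univ_unique, Finset.sum_singleton]
        ring
      · intro k
        rw [Fintype.sum_sum_type]
        simp only [Sum.elim_inl, Sum.elim_inr, hpr, Pi.zero_apply, mul_zero, Finset.sum_const_zero,
          add_zero, add_mul, Finset.sum_add_distrib, ite_mul, zero_mul, Finset.sum_ite_eq',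
          Finset.mem_univ, if_true]
        rw [hpl, hpl, hpl, hpl]
        have q1 := (hp (r u)).ne'
        have q2 := (hp (r v)).ne'
        have q3 := (hp (r a)).ne'
        have q4 := (hp (r b)).ne'
        fin_cases k
        · simp only [pt]
          simp
          field_simp
          linarith
        · simp only [pt]
          simp
          field_simp
          linarith
        · simp only [pt]
          simp
          field_simp
          linarith
    rintro (u | y) (v | z) huv hadj
    · have h1 : ¬ H.Adj u v := fun h => hadj ⟨huv, fun u' v' h1 h2 => by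
        rw [← Sum.inl.inj h1, ← Sum.inl.inj h2]
        exact h⟩
      rcases lt_trichotomy (e u) (e v) with h | h | h
      · exact hcase u v h h1
      · exact absurd (by rw [e.injective h]) huv
      · obtain ⟨a, b, c, w, h2, h3, h4, h5, h6, h7⟩ := hcase v u h (fun h => h1 h.symm)
        exact ⟨b, a, c, w, h3, h2, h4, h5, by rw [h6, add_comm], fun k => by
          rw [← h7 k, add_comm]⟩
    · exact absurd ⟨huv, fun u' v' _ h2 => by simp at h2⟩ hadj
    · exact absurd ⟨huv, fun u' v' h1 _ => by simp at h1⟩ hadj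
    · exact absurd (by rw [hcone y, hcone z]) huv

end Pool.Agent.W4helper48.JN
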